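import Pool.Agent.TH376.TC.MT

/-!
# The `ℓ`-adic Mumford–Tate conjecture and singular cubic hypersurfaces

For polynomials `g_0, …, g_r` in `n` variables over `k` let `V ⊆ 𝔸^n` be the closed subscheme
`g_0 = ⋯ = g_r = 0` and let `E_g` be the hypersurface `g_0 t_0 + ⋯ + g_r t_r = 0` in
`𝔸^(n+r+1)`. The homology of `V × 𝔸^(r+1)` is contained in that of `E_g`: the boundary map from the
homology of the complement `U` factors over the push-forward from `U` to `(𝔸^n ∖ V) × 𝔸^(r+1)`,
and this push-forward is zero. A Hodge class on `V` is therefore a Tate class if it is one on `E_g`.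
A Tate class on `V` which becomes a combination of Hodge classes on `E_g` is a combination of Hodge
classes on `V`: the coordinates of a vector with respect to a basis of `K` over `ℚ` commute with all
maps which respect the rational structures, and maps of mixed Hodge structures are strict.
-/

set_option autoImplicit false

open CategoryTheory CategoryTheory.Limits AlgebraicGeometry Pool.Agent.TH90.Cub
  Pool.Agent.TH376.TC

namespace Pool.Agent.Results.MP_6c781a_ag.CubicHypersurfaces

/-- **The `ℓ`-adic Mumford–Tate conjecture and singular cubic hypersurfaces.** Let `S` be a set which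
contains `1` and generates the field `k`. The following are equivalent:

(1) for all smooth projective varieties over `k` the Hodge classes and the Tate classes span the
same space;

(2) the same for the homology of all varieties over `k`;

(3) the same for the homology of the cubic hypersurfaces `g_0 t_0 + ⋯ + g_r t_r = 0` in affine
space, each `g_i` being one of `x_a x_b - x_c`, `x_a + x_b - x_c`, `x_a - c` with `c` in `S`.

The same holds for each of the two inclusions. -/
theorem result {k K : Type} [Field k] [Field K] [CharZero K] (T : Realisations k K)
    (hH : HProps T.toHMaps) (hF : T.Facts) (S : Set k) (hS : Subfield.closure S = ⊤)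
    (h1 : (1 : k) ∈ S) :
    Reduces S T.MumfordTate ∧ Reduces S T.HodgeTate ∧ Reduces S T.TateHodge := by
  unfold Reduces
  refine ⟨?_, ?_, ?_⟩
  · tfae_have 1 → 2 := by
      intro h X hX j
      exact le_antisymm
        (Realisations.hodgeTate_all hF (fun Y hY j => (h Y hY j).le) X hX j)
        (Realisations.tateHodge_all hF (fun Y hY j => (h Y hY j).ge) X hX j)
    tfae_have 2 → 3 := fun h n r g _ => h _ (aff_var _ (cone_ft g))
    tfae_have 3 → 1 := by
      intro h X hX j
      exact le_antisymm
        (Realisations.hodgeTate_of_cone hH hF hS h1 (fun n r g hg j => (h n r g hg j).le) X hX j)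
        (Realisations.tateHodge_of_cone hH hF hS h1 (fun n r g hg j => (h n r g hg j).ge) X hX j)
    tfae_finish
  · tfae_have 1 → 2 := Realisations.hodgeTate_all hF
    tfae_have 2 → 3 := fun h n r g _ => h _ (aff_var _ (cone_ft g))
    tfae_have 3 → 1 := Realisations.hodgeTate_of_cone hH hF hS h1
    tfae_finish
  · tfae_have 1 → 2 := Realisations.tateHodge_all hF
    tfae_have 2 → 3 := fun h n r g _ => h _ (aff_var _ (cone_ft g))
    tfae_have 3 → 1 := Realisations.tateHodge_of_cone hH hF hS h1
    tfae_finish

end Pool.Agent.Results.MP_6c781a_ag.CubicHypersurfaces
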