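import Pool.Agent.TH686.MT.Final

/-!
# The Mumford-Tate conjecture for all powers of an abelian variety and quartic Tate classes

Definitions: `IsHodgeTensor`, `IsHodgeEnd`, `IsTateTensor` are in `Pool.Agent.H204R3.GP.MTDefs`;
`IsRationalStructure`, `IsRiemannForm`, `IsHodgeCombination`, `Annihilates`, `endos`, `Faltings`,
`Semisimple`, `Deligne`, `Centres` in `Pool.Agent.W516.MT.Defs`. The algebraic part (the Casimir form
of the Lie algebra of the Tate classes) is from the starting library `Pool.Agent.W516.MT`.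
-/

set_option autoImplicit false

namespace Pool.Agent.Results.MP_6c781a_ag.QuarticTateClass

open Module TensorProduct Pool.Agent.H204R3.GP Pool.Agent.W516 Pool.Agent.W516.MTD

/-- The value of a form in four variables; the variables `(0, 0)`, `(0, 1)` form the first pair and
`(1, 0)`, `(1, 1)` the second one. -/
def val {k V : Type} [Field k] [AddCommGroup V] [Module k V]
    (Θ : MultilinearMap k (fun _ : Fin 2 × Fin 2 => V) k) (a b c d : V) : k :=
  Θ fun l => ![![a, b], ![c, d]] l.1 l.2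

/-- **The Mumford-Tate conjecture for all powers of an abelian variety is decided by one class in
`Sym² (Sym² H¹) (2) ⊆ H⁴(A ^ 4) (2)`.** The data: `W = H_1(A, ℚ)`, the tangent space `T`, the Tate
module `V = ℚ_ℓ ⊗ W`, the continuous action `ρ` of the (compact) Galois group `Γ`, the cyclotomic
character `χ`, a polarization `ω₀` and the Weil pairing `ω`. Assumed are the theorems of Faltings
(semisimplicity, endomorphisms), of Deligne (Hodge classes are Tate classes) and of Vasiu and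
Ullmo-Yafaev (centres). Then there is a form `Θ` on `V` in four variables such that

1. `Θ` is a Tate class, invariant under the whole Galois group;
2. `Θ` is symmetric in the first pair and in the second pair of variables and under the exchange of
   the two pairs;
3. if an endomorphism `Z` of `V` is skew for the Weil pairing, commutes with the endomorphisms of
   `A` and annihilates `Θ`, then there is `C` in the centre of `End(A) ⊗ ℚ_ℓ` such that `Z - C`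
   annihilates all Tate classes of all powers of `A`;
4. all Tate classes of all powers of `A` are linear combinations of Hodge classes if and only if
   `Θ` is a linear combination of Hodge classes. -/
theorem result (ℓ : ℕ) [Fact ℓ.Prime]
    -- the complex torus `A(ℂ)` with a polarization
    {W T : Type} [AddCommGroup W] [Module ℚ W] [FiniteDimensional ℚ W] [AddCommGroup T]
    [Module ℂ T] (per : W →+ T) (hper : IsRationalStructure per)
    (ω₀ : W →ₗ[ℚ] W →ₗ[ℚ] ℚ) (hω₀ : IsRiemannForm per ω₀)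
    -- the Galois group, its continuous action on the Tate module and the Weil pairing
    {Γ : Type} [Group Γ] [TopologicalSpace Γ] [IsTopologicalGroup Γ] [CompactSpace Γ]
    (ρ : Representation ℚ_[ℓ] Γ (ℚ_[ℓ] ⊗[ℚ] W)) (χ : Γ →* ℚ_[ℓ])
    (hρ : ∀ (f : ℚ_[ℓ] ⊗[ℚ] W →ₗ[ℚ_[ℓ]] ℚ_[ℓ]) (v : ℚ_[ℓ] ⊗[ℚ] W),
      Continuous fun s => f (ρ s v)) (hχ : Continuous χ)
    (ω : ℚ_[ℓ] ⊗[ℚ] W →ₗ[ℚ_[ℓ]] ℚ_[ℓ] ⊗[ℚ] W →ₗ[ℚ_[ℓ]] ℚ_[ℓ])
    (hωω : ∀ u v : W, ω ((1 : ℚ_[ℓ]) ⊗ₜ[ℚ] u) ((1 : ℚ_[ℓ]) ⊗ₜ[ℚ] v) = ((ω₀ u v : ℚ) : ℚ_[ℓ]))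
    (hωρ : ∀ s u v, ω (ρ s u) (ρ s v) = χ s * ω u v)
    -- the theorems of Faltings and Deligne and the theorem on centres
    (hss : Semisimple ρ) (hF : Faltings per ρ) (hD : Deligne per ρ χ) (hC : Centres per ρ χ) :
    ∃ Θ : MultilinearMap ℚ_[ℓ] (fun _ : Fin 2 × Fin 2 => ℚ_[ℓ] ⊗[ℚ] W) ℚ_[ℓ],
      (∀ s v, Θ (fun l => ρ s (v l)) = χ s ^ 2 * Θ v) ∧
      (∀ a b c d, val Θ a b c d = val Θ b a c d ∧ val Θ a b c d = val Θ a b d c ∧
        val Θ a b c d = val Θ c d a b) ∧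
      (∀ Z : Module.End ℚ_[ℓ] (ℚ_[ℓ] ⊗[ℚ] W), (∀ u v, ω (Z u) v + ω u (Z v) = 0) →
        (∀ P ∈ endos ℚ_[ℓ] per, Z * P = P * Z) → Annihilates Z Θ →
        ∃ C ∈ endos ℚ_[ℓ] per, (∀ P ∈ endos ℚ_[ℓ] per, C * P = P * C) ∧
          ∀ (m : ℕ) (φ : MultilinearMap ℚ_[ℓ] (fun _ : Fin m × Fin 2 => ℚ_[ℓ] ⊗[ℚ] W) ℚ_[ℓ]),
            IsTateTensor ρ χ m φ → Annihilates (Z - C) φ) ∧
      ((∀ (m : ℕ) (φ : MultilinearMap ℚ_[ℓ] (fun _ : Fin m × Fin 2 => ℚ_[ℓ] ⊗[ℚ] W) ℚ_[ℓ]),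
        IsTateTensor ρ χ m φ → IsHodgeCombination per φ) ↔ IsHodgeCombination per Θ) := by
  have hωω' : ∀ u v : W, ω ((1 : ℚ_[ℓ]) ⊗ₜ[ℚ] u) ((1 : ℚ_[ℓ]) ⊗ₜ[ℚ] v) =
      algebraMap ℚ ℚ_[ℓ] (ω₀ u v) := fun u v => by rw [hωω, eq_ratCast]
  let e : Basis (Fin (finrank ℚ W)) ℚ_[ℓ] (ℚ_[ℓ] ⊗[ℚ] W) := (finBasis ℚ W).baseChange ℚ_[ℓ]
  have he : ∀ i, e i = (1 : ℚ_[ℓ]) ⊗ₜ[ℚ] finBasis ℚ W i := fun i => Basis.baseChange_apply _ _ _
  have hcomm : ∀ P : Module.End ℚ_[ℓ] (ℚ_[ℓ] ⊗[ℚ] W),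
      (∀ X ∈ Pool.Agent.H204R3.SP.lieT ρ χ, X * P = P * X) → P ∈ endos ℚ_[ℓ] per := by
    intro P hP
    refine hF P (Pool.Agent.TH686.MT.comm_fin e ρ χ (fun i j => ?_) hχ P hP)
    have h1 : (fun s => LinearMap.toMatrix e e (ρ s) i j) = fun s => e.coord i (ρ s (e j)) := by
      funext s
      rw [LinearMap.toMatrix_apply, Basis.coord_apply]
    rw [h1]
    exact hρ _ _
  have hsemi : KC.Semi (Pool.Agent.H204R3.SP.lieT ρ χ) := by
    intro U hU
    refine Pool.Agent.TH686.MT.semi ρ (Pool.Agent.H204R3.SP.lieT ρ χ : Set _)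
      (fun s X hX => Pool.Agent.H204R3.SP.lieT_conj ρ χ s hX) hss (fun P hP X hX => ?_) U hU
    refine MTM.lieT_comm per ρ χ ω₀ ω hper hω₀ hωω' hωρ hD hX (hF P ⟨⊤, inferInstance, ?_⟩)
    intro s _ v
    exact congrArg (fun A : Module.End ℚ_[ℓ] (ℚ_[ℓ] ⊗[ℚ] W) => A v) (hP s)
  have hros : MTS.S_ROS := by
    intro W T _ _ _ _ _ per n b b' hb ω₀ E hE hI ha hpos P P' hP hskew htr
    exact Pool.Agent.TH686.MT.ros W T per n b b' hb ω₀ E hE hI ha hpos P P' hP hskew htr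
  have hnt := MTM.lieT_trace per ρ χ ω₀ ω hper hω₀ hωω' hωρ hD hC hcomm hsemi hros
  have hsk : ∀ X ∈ Pool.Agent.H204R3.SP.lieT ρ χ, ∀ u v, ω (X u) v + ω u (X v) = 0 :=
    fun X hX u v => Pool.Agent.H204R3.SP.lieT_sp ρ χ ω hωρ hX u v
  have halt : ∀ u v, ω u v = - ω v u := by
    have h0 : ∀ x y : W, ω₀ x y = - ω₀ y x := by
      obtain ⟨E, hE, -, ha, -⟩ := hω₀
      intro x y
      have h1 := ha (per x + per y)
      simp only [map_add, LinearMap.add_apply, ha, zero_add, add_zero] at h1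
      rw [hE, hE] at h1
      have h2 : ((ω₀ y x + ω₀ x y : ℚ) : ℝ) = 0 := by
        push_cast
        linarith
      have h3 : ω₀ y x + ω₀ x y = 0 := by exact_mod_cast h2
      linarith
    have h1 : ω = - ω.flip := by
      refine e.ext fun i => e.ext fun j => ?_
      rw [LinearMap.neg_apply, LinearMap.neg_apply, LinearMap.flip_apply, he, he, hωω, hωω, h0]
      push_cast
      ring
    intro u v
    conv_lhs => rw [h1]
    rw [LinearMap.neg_apply, LinearMap.neg_apply, LinearMap.flip_apply]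
  refine ⟨KC2.casimir (Pool.Agent.H204R3.SP.lieT ρ χ) hnt ω,
    Pool.Agent.TH686.MT.invar ρ χ ω hωρ hnt, ?_, ?_, ?_, ?_⟩
  · intro a b c d
    unfold val
    rw [KC2.casimir_apply, KC2.casimir_apply, KC2.casimir_apply, KC2.casimir_apply]
    simp only [Matrix.cons_val_zero, Matrix.cons_val_one]
    refine ⟨?_, ?_, ?_⟩
    · rw [Pool.Agent.TH686.MT.EE_symm _ hnt ω hsk halt a b]
    · exact Pool.Agent.TH686.MT.EE_symm2 _ hnt ω hsk halt a b c d
    · exact Pool.Agent.TH686.MT.EE_symm3 _ hnt ω a b c d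
  · intro Z h1 h2 h3
    obtain ⟨C, hC1, hC2, hC3⟩ := Pool.Agent.TH686.MT.rigid per ρ χ ω₀ ω hper hω₀ hωω' hωρ hD hcomm
      hnt Z h1 h2 h3
    exact ⟨C, hC1, hC2, fun m φ hφ => hC3 m φ hφ⟩
  · intro h
    exact h 2 _ ⟨⊤, inferInstance, fun s _ v => Pool.Agent.TH686.MT.invar ρ χ ω hωρ hnt s v⟩
  · intro h m φ hφ
    exact Pool.Agent.TH686.MT.quartic per ρ χ ω₀ ω hper hω₀ hωω' hωρ hD hC hcomm hnt h m φ hφ

end Pool.Agent.Results.MP_6c781a_ag.QuarticTateClass
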