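import Pool.Agent.TH118.OR.Abh2

/-!
# Hodge classes and Tate classes on products with powers

Let `W` be the `ℓ`-adic cohomology with coefficients extended to an algebraic closure of `ℚ_ℓ`, identified
with the singular cohomology.  Let `C V j` be the span of the Tate classes in `H^(2j)(V)`, and
`C' V j` the span of the Hodge classes (for varieties `V` over the algebraic closure of a number
field).  Both contain the classes of algebraic cycles and are stable under products with such classes,
pull-backs and push-forwards (`IsClassTheory`) and under sums (`StableSum`).  Q1 for `V` is the equality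
of `C V j` and `C' V j` for all `j`.

There are two groups: the Galois group `Γ` of a number field, with the cyclotomic character `χ`, and the
fundamental group `Δ` of the base of a family with its trivial character `χ'`.  The varieties `X i`
have good elements for `Γ`, for instance inertia elements at places of bad reduction of special types,
and the `X' i` (the same varieties, with another action) have good elements for `Δ`, the
loops around special fibres (`GoodPowers`; see MP_e2e4f5_ag.SpecialFibres of this run for the list of the
types).  Tate classes are, on all varieties, multiplied by powers of `χ` by subgroups of finite index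
of `Γ`, and the Hodge classes on products of general members of families are fixed by subgroups of
finite index of `Δ` (`TateOnTowers`).

Theorem.  Let `Y` be a product of `Z` and powers of different `X i` (of exponents less than
the dimension of the transcendental cohomology for even dimension).  Then Q1 for `Y` is equivalent to Q1
for `Z`.

For example, let `X_1, …, X_r` be odd-dimensional members of independent families over number fields
as in SpecialFibres, general in the sense that the image of the Galois group contains the
monodromy group (up to a subgroup of finite index; for the elements of finite order exactly), and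
`A` an abelian variety for whose powers Q1 is known, for instance with complex multiplication or of
prime dimension.  Then Q1 is true for all powers of `X_1 × ⋯ × X_r × A`, for all `j`.  The Hodge and the
Tate conjecture for the powers of `A` are not known in general, so Q1 does not follow from them.
-/

universe u

namespace Pool.Agent.Results.MP_6c781a_ag.TwoGroupTowers

open Pool.Agent.H914 Pool.Agent.TH118.OR.Abh
open Pool.Agent.TH125.Abh (IsClassTheory)

/-- **Tate classes and Hodge classes on towers.** -/
theorem result {k : Type u} [Field k] {𝒱 : VarClass k} {ops : CycleOps 𝒱}
    (W : WeilCohomology.{u, 0} ops) [IsAlgClosed W.K] {Γ Δ : Type} [Group Γ] [Group Δ]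
    (χ : Chr W Γ) (χ' : Chr W Δ) {ι ι' : Type} (X : ι → AVar W Γ) (X' : ι' → AVar W Δ)
    (Z Y : 𝒱.Obj) (ζ : CohAct W Γ Z) (ζ' : CohAct W Δ Z) (υ : CohAct W Γ Y) (υ' : CohAct W Δ Y)
    (h : GoodPowers χ X ⟨Z, ζ⟩) (h' : GoodPowers χ' X' ⟨Z, ζ'⟩)
    (C C' : ∀ V : 𝒱.Obj, ℕ → Set (W.H V)) (hC : IsClassTheory W C) (hs : StableSum W C)
    (hT : TateOnTowers χ X ⟨Z, ζ⟩ C) (hC' : IsClassTheory W C') (hs' : StableSum W C')
    (hT' : TateOnTowers χ' X' ⟨Z, ζ'⟩ C') (S : Set ι) (S' : Set ι')
    (hY : ATower X ⟨Z, ζ⟩ S ⟨Y, υ⟩) (hY' : ATower X' ⟨Z, ζ'⟩ S' ⟨Y, υ'⟩) :
    (∀ j, C Y j = C' Y j) ↔ ∀ j, C Z j = C' Z j :=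
  tower_eq h h' hC hs hT hC' hs' hT' hY hY'

end Pool.Agent.Results.MP_6c781a_ag.TwoGroupTowers
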